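import Pool.Agent.Work.MP_5d318d_nt.AFinal

set_option autoImplicit false

namespace Pool.Agent.Results.MP_5d318d_nt.AlmostAll

/-- Unconditionally, for all moduli `1 ≤ Q ≤ Q₁ ≤ X` with at most `Q₁ X^{-δ}` exceptions, the
variance `G(X,Q)` is at least `X log (Q² / X) - ε X log X`. -/
theorem result :
    ∀ ε : ℝ, 0 < ε → ∃ δ : ℝ, 0 < δ ∧ ∃ X₀ : ℝ, ∀ X : ℝ, X₀ ≤ X → ∀ Q₁ : ℕ, (Q₁ : ℝ) ≤ X →
      (((Finset.Icc 1 Q₁).filter (fun Q : ℕ =>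
        ∑ A ∈ (Finset.range Q).filter (fun A => Nat.Coprime A Q),
          ((∑ n ∈ (Finset.Icc 1 ⌊X⌋₊).filter (fun n => n % Q = A),
              ArithmeticFunction.vonMangoldt n) - X / (Nat.totient Q : ℝ)) ^ 2 <
          X * Real.log ((Q : ℝ) ^ 2 / X) - ε * (X * Real.log X))).card : ℝ) ≤ Q₁ * X ^ (-δ) :=
  Pool.Agent.Work.MP_5d318d_nt.almost_all

end Pool.Agent.Results.MP_5d318d_nt.AlmostAll
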