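import Pool.Agent.Work.MP_5d318d_nt.Z.Fin

set_option autoImplicit false

namespace Pool.Agent.Results.MP_5d318d_nt.BeyondHalf

/-- Unconditionally, for every modulus `Q` in a power range below `X`, the variance `G(X,Q)` is at
least `(1/2 + c) X log X` with an absolute constant `c > 0`. -/
theorem result :
    ∃ c : ℝ, 0 < c ∧ ∃ η : ℝ, 0 < η ∧ ∃ X₀ : ℝ, ∀ X : ℝ, X₀ ≤ X → ∀ Q : ℕ,
      X ^ (1 - η) ≤ (Q : ℝ) → (Q : ℝ) ≤ X →
      (1 / 2 + c) * X * Real.log X ≤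
        ∑ A ∈ (Finset.range Q).filter (fun A => Nat.Coprime A Q),
          ((∑ n ∈ (Finset.Icc 1 ⌊X⌋₊).filter (fun n => n % Q = A),
              ArithmeticFunction.vonMangoldt n) - X / (Nat.totient Q : ℝ)) ^ 2 :=
  Pool.Agent.Work.MP_5d318d_nt.Zh.beyond_main

end Pool.Agent.Results.MP_5d318d_nt.BeyondHalf
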