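import Pool.Agent.Work.MP_5d318d_nt.Final

set_option autoImplicit false

namespace Pool.Agent.Results.MP_5d318d_nt.LowerBound

/-- Unconditionally and uniformly for `1 ≤ Q ≤ X`, the variance `G(X,Q)` is at least
`X log (Q^{3/2} / X) - o(X log X)`. -/
theorem result :
    ∀ ε : ℝ, 0 < ε → ∃ X₀ : ℝ, ∀ X : ℝ, X₀ ≤ X → ∀ Q : ℕ, 1 ≤ Q → (Q : ℝ) ≤ X →
      X * Real.log ((Q : ℝ) ^ (3 / 2 : ℝ) / X) - ε * (X * Real.log X) ≤
        ∑ A ∈ (Finset.range Q).filter (fun A => Nat.Coprime A Q),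
          ((∑ n ∈ (Finset.Icc 1 ⌊X⌋₊).filter (fun n => n % Q = A),
              ArithmeticFunction.vonMangoldt n) - X / (Nat.totient Q : ℝ)) ^ 2 :=
  Pool.Agent.Work.MP_5d318d_nt.lower_main

end Pool.Agent.Results.MP_5d318d_nt.LowerBound
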