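import Pool.Agent.Work.MP_5d318d_nt.RT.Fin

set_option autoImplicit false

namespace Pool.Agent.Results.MP_5d318d_nt.Windows

/-- Unconditionally and for every large modulus `Q`, a lower bound for the averages of
`G(Q^α, Q) / (Q^α log Q)` over `α > 1` against the autocorrelation of a weight `ψ`. -/
theorem result (ψ : ℝ → ℝ) (hl : LowerSemicontinuous ψ) (h0 : ∀ x, 0 ≤ ψ x)
    (hb : ∃ B : ℝ, (∀ x, ψ x ≤ B) ∧ ∀ x, B < |x| → ψ x = 0) (ε : ℝ) (hε : 0 < ε) :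
    ∃ Q₀ : ℕ, ∀ Q : ℕ, Q₀ ≤ Q →
      (∫ x, ψ x) ^ 2 / 2 - (∫ x, ψ x ^ 2) / 2 -
          (∫ α in (0 : ℝ)..1, α * ∫ x, ψ x * ψ (x + α)) - ε ≤
        ∫ α in Set.Ioi (1 : ℝ),
          (∑ A ∈ (Finset.range Q).filter (fun A => Nat.Coprime A Q),
            ((∑ n ∈ (Finset.Icc 1 ⌊(Q : ℝ) ^ α⌋₊).filter (fun n => n % Q = A),
              ArithmeticFunction.vonMangoldt n) - (Q : ℝ) ^ α / (Nat.totient Q : ℝ)) ^ 2) /
            ((Q : ℝ) ^ α * Real.log Q) * ∫ x, ψ x * ψ (x + α) := by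
  obtain ⟨B, h1, h2⟩ := hb
  exact HooRT.windows hl ⟨hl.measurable, h0, h1, h2⟩ ((h0 0).trans (h1 0)) hε

end Pool.Agent.Results.MP_5d318d_nt.Windows
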